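import Mathlib
import Pool.Agent.W275.FML.All
import Pool.Agent.L0h45.DH.Law4

/-!
# No congruences at any level, for almost all semistable curves by conductor
-/

set_option autoImplicit false

namespace Pool.Agent.L0h45.FM

open Filter Topology
open Pool.Agent.L0h45.DH
open Pool.Agent.W275.FM (dsc hgt Twist TorIso Bx Bx_finite)
open Pool.Agent.R417.LD (cond)

/-- curves with a companion of height at most `H ^ (1 + δ)`, not a twist -/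
def Bad (δ : ℝ) (p : ℤ × ℤ) : Prop := ∃ (A' B' : ℤ) (n : ℕ), dsc A' B' ≠ 0 ∧
  ¬ Twist p.1 p.2 A' B' ∧ (hgt A' B' : ℝ) ≤ (hgt p.1 p.2 : ℝ) ^ (1 + δ) ∧ 2 ≤ n ∧
  TorIso n p.1 p.2 A' B'

/-- the exceptional curves in a box -/
theorem bad_box (δ : ℝ) (h0 : 0 < δ) (h11 : 11 * δ < 1) (ε : ℝ) (hε : 0 < ε) :
    ∃ X₀ : ℝ, 1 ≤ X₀ ∧ ∀ X : ℝ, X₀ ≤ X → ∀ S : Finset (ℤ × ℤ),
      (∀ e ∈ S, |(e.1 : ℝ)| ≤ X ^ 2 ∧ |(e.2 : ℝ)| ≤ X ^ 3 ∧ e.1 ^ 3 - e.2 ^ 2 ≠ 0 ∧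
        Bad δ (-27 * e.1, -54 * e.2)) →
      (S.card : ℝ) ≤ ε * X ^ 5 := by
  classical
  obtain ⟨T₀, hT₀⟩ := Pool.Agent.W275.FML.thm_T3 δ (ε / 7 ^ 5) h0 h11 (by positivity)
  refine ⟨max T₀ 1, le_max_right _ _, fun X hX S hS => ?_⟩
  have hX1 : 1 ≤ X := (le_max_right _ _).trans hX
  have hXT : (T₀ : ℝ) ≤ X := (le_max_left _ _).trans hX
  set T : ℕ := ⌈6 * X⌉₊ with hT
  have hT1 : 6 * X ≤ (T : ℝ) := Nat.le_ceil _
  have hT2 : (T : ℝ) ≤ 7 * X := by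
    have := Nat.ceil_lt_add_one (a := 6 * X) (by linarith)
    linarith
  have hTT : T₀ ≤ T := by
    have : (T₀ : ℝ) ≤ T := by linarith
    exact_mod_cast this
  have h1 := hT₀ T hTT
  have h2 : (S.card : ℝ) ≤ ε / 7 ^ 5 * (T : ℝ) ^ 5 := by
    refine le_trans ?_ h1
    have h3 : (S.image (fun e : ℤ × ℤ => (-27 * e.1, -54 * e.2))).card = S.card := by
      refine Finset.card_image_of_injective _ ?_
      rintro ⟨a, b⟩ ⟨c, d⟩ h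
      simp only [Prod.mk.injEq] at h
      exact Prod.ext (by simp only; omega) (by simp only; omega)
    rw [← h3, ← Set.ncard_coe_finset]
    refine Nat.cast_le.2 (Set.ncard_le_ncard ?_ ((Bx_finite T).subset fun p hp => hp.1))
    intro p hp
    rw [Finset.mem_coe, Finset.mem_image] at hp
    obtain ⟨e, he, rfl⟩ := hp
    obtain ⟨k1, k2, k0, k3⟩ := hS e he
    refine ⟨⟨?_, ?_⟩, ?_, k3⟩
    · show |-27 * e.1| ≤ (T : ℤ) ^ 2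
      have h4 : |((-27 * e.1 : ℤ) : ℝ)| ≤ (T : ℝ) ^ 2 := by
        push_cast
        rw [abs_mul, abs_neg, abs_of_pos (by norm_num : (0 : ℝ) < 27)]
        calc 27 * |(e.1 : ℝ)| ≤ 27 * X ^ 2 := by linarith
          _ ≤ (6 * X) ^ 2 := by nlinarith [sq_nonneg X]
          _ ≤ (T : ℝ) ^ 2 := by gcongr
      exact_mod_cast h4
    · show |-54 * e.2| ≤ (T : ℤ) ^ 3
      have h4 : |((-54 * e.2 : ℤ) : ℝ)| ≤ (T : ℝ) ^ 3 := by
        push_cast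
        rw [abs_mul, abs_neg, abs_of_pos (by norm_num : (0 : ℝ) < 54)]
        have hX3 : 0 ≤ X ^ 3 := by positivity
        calc 54 * |(e.2 : ℝ)| ≤ 54 * X ^ 3 := by linarith
          _ ≤ (6 * X) ^ 3 := by nlinarith
          _ ≤ (T : ℝ) ^ 3 := by gcongr
      exact_mod_cast h4
    · show dsc (-27 * e.1) (-54 * e.2) ≠ 0
      have h4 : dsc (-27 * e.1) (-54 * e.2) = -78732 * (e.1 ^ 3 - e.2 ^ 2) := by
        unfold Pool.Agent.W275.FM.dsc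
        ring
      rw [h4]
      exact mul_ne_zero (by norm_num) k0
  calc (S.card : ℝ) ≤ ε / 7 ^ 5 * (T : ℝ) ^ 5 := h2
    _ ≤ ε / 7 ^ 5 * (7 * X) ^ 5 := by gcongr
    _ = ε * X ^ 5 := by ring

/-- the exceptional curves by conductor -/
theorem bad_cond (δ : ℝ) (h0 : 0 < δ) (h11 : 11 * δ < 1) (β : ℝ) (hβ1 : 1 < β) (hβ : β < 10 / 7) :
    Tendsto (fun Z : ℝ => ((Cv fun W => (cond W : ℝ) ≤ Z ∧ ht W ≤ Z ^ β ∧
      Bad δ (-27 * W.c₄, -54 * W.c₆)).ncard : ℝ) / Z ^ (5 / 6 : ℝ)) atTop (𝓝 0) := by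
  classical
  obtain ⟨C, hC, htail⟩ := fin_tail_K β (1 / 12) hβ1 hβ (by norm_num) (by norm_num)
  rw [Metric.tendsto_atTop]
  intro ε' hε'
  -- choose `K`
  have hK : ∃ K : ℝ, 1 ≤ K ∧ C * K ^ (-(1 / 12) : ℝ) < ε' / 2 := by
    have h1 : Tendsto (fun K : ℝ => C * K ^ (-(1 / 12) : ℝ)) atTop (𝓝 (C * 0)) :=
      (tendsto_rpow_neg_atTop (by norm_num)).const_mul C
    rw [mul_zero] at h1
    have h2 := h1.eventually (gt_mem_nhds (by positivity : 0 < ε' / 2))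
    obtain ⟨K, hK⟩ := (h2.and (eventually_ge_atTop 1)).exists
    exact ⟨K, hK.2, hK.1⟩
  obtain ⟨K, hK1, hKε⟩ := hK
  have hK0 : 0 < K := by linarith
  obtain ⟨X₀, hX₀1, hbox⟩ := bad_box δ h0 h11 (ε' / 4 / K ^ (5 / 6 : ℝ)) (by positivity)
  obtain ⟨Z₁, hZ₁⟩ := Filter.eventually_atTop.1 (htail K hK1)
  refine ⟨max (max Z₁ (X₀ ^ 6)) 1, fun Z hZ => ?_⟩
  have hZ1 : 1 ≤ Z := (le_max_right _ _).trans hZ
  have hZ0 : 0 < Z := by linarith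
  have hZZ₁ : Z₁ ≤ Z := (le_max_left _ _).trans ((le_max_left _ _).trans hZ)
  have hZX : X₀ ^ 6 ≤ Z := (le_max_right _ _).trans ((le_max_left _ _).trans hZ)
  have ht' := hZ₁ Z hZZ₁
  set X : ℝ := (K * Z) ^ (1 / 6 : ℝ) with hX
  have hKZ : 0 < K * Z := by positivity
  have hX6 : X ^ 6 = K * Z := rpow_sixth hKZ.le
  have hX0 : 0 < X := Real.rpow_pos_of_pos hKZ _
  have hXX₀ : X₀ ≤ X := by
    refine (pow_le_pow_iff_left₀ (by linarith) hX0.le (by norm_num : (6 : ℕ) ≠ 0)).1 ?_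
    rw [hX6]
    nlinarith
  set A : Set (ℤ × ℤ) := Cv fun W => (cond W : ℝ) ≤ Z ∧ ht W ≤ Z ^ β ∧
      Bad δ (-27 * W.c₄, -54 * W.c₆) with hA
  set A₁ : Set (ℤ × ℤ) := Cv fun W => (cond W : ℝ) ≤ Z ∧ ht W ≤ Z ^ β ∧ K * (cond W : ℝ) < ht W
    with hA₁
  set A₂ : Set (ℤ × ℤ) := Cv fun W => ht W ≤ X ^ 6 ∧ Bad δ (-27 * W.c₄, -54 * W.c₆) with hA₂
  have hsub : A ⊆ A₁ ∪ A₂ := by
    rintro q ⟨W, hW, ⟨k1, k2, k3⟩, rfl⟩
    by_cases h : K * (cond W : ℝ) < ht W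
    · exact Or.inl ⟨W, hW, ⟨k1, k2, h⟩, rfl⟩
    · right
      refine ⟨W, hW, ⟨?_, k3⟩, rfl⟩
      rw [hX6]
      calc ht W ≤ K * cond W := not_lt.1 h
        _ ≤ K * Z := by gcongr
  have hf1 : A₁.Finite := cv_finite (H := Z ^ β) fun W hW => hW.2.1
  have hf2 : A₂.Finite := cv_finite (H := X ^ 6) fun W hW => hW.1
  have hc : (A.ncard : ℝ) ≤ A₁.ncard + A₂.ncard := by
    exact_mod_cast (Set.ncard_le_ncard hsub (hf1.union hf2)).trans (Set.ncard_union_le _ _)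
  have hA2 : (A₂.ncard : ℝ) ≤ ε' / 4 / K ^ (5 / 6 : ℝ) * X ^ 5 := by
    refine ncard_le_of hf2 fun S hS => hbox X hXX₀ S fun e he => ?_
    obtain ⟨W, hW, ⟨k1, k2⟩, rfl⟩ := hS e he
    obtain ⟨b1, b2⟩ := box_of_ht hX0.le k1
    refine ⟨b1, b2, ?_, k2⟩
    have h3 := W.c_relation
    have h4 : W.c₄ ^ 3 - W.c₆ ^ 2 = 1728 * W.Δ := by linarith
    show W.c₄ ^ 3 - W.c₆ ^ 2 ≠ 0
    rw [h4]
    exact mul_ne_zero (by norm_num) hW.1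
  have hX5 : X ^ 5 = K ^ (5 / 6 : ℝ) * Z ^ (5 / 6 : ℝ) := by
    rw [hX, ← Real.rpow_natCast, ← Real.rpow_mul hKZ.le, Real.mul_rpow hK0.le hZ0.le]
    norm_num
  have hA2' : (A₂.ncard : ℝ) ≤ ε' / 4 * Z ^ (5 / 6 : ℝ) := by
    refine hA2.trans (le_of_eq ?_)
    rw [hX5]
    have : K ^ (5 / 6 : ℝ) ≠ 0 := by positivity
    field_simp
  have hZp : 0 < Z ^ (5 / 6 : ℝ) := by positivity
  rw [Real.dist_eq, sub_zero, abs_of_nonneg (by positivity), div_lt_iff₀ hZp]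
  have hA1' : (A₁.ncard : ℝ) ≤ ε' / 2 * Z ^ (5 / 6 : ℝ) := by
    refine ht'.trans ?_
    have h2 : -(1 / 12 : ℝ) = (-(1 / 12) : ℝ) := rfl
    gcongr
  have : 0 < ε' * Z ^ (5 / 6 : ℝ) := by positivity
  nlinarith

end Pool.Agent.L0h45.FM
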